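import Mathlib
import Pool.Agent.V11133.NRArrow

/-!
# For all `k ≥ ℓ ≥ 3` there is a graph `G` with `G ↛ (K_k, K_ℓ)` and
`G → (K_{k-1}, K_{k-1}, K_ℓ)`
-/

set_option autoImplicit false

namespace Pool.Agent.Results.MP_6ce170_co.Exists

/-- `G → (K_{a 0}, …, K_{a (r-1)})`: for every colouring of the edges of `G` with the colours
`0, …, r-1` there are a colour `i` and a set of `a i` vertices of `G` any two of which are joined
by an edge of colour `i`. -/
def Arrows {V : Type} (G : SimpleGraph V) {r : ℕ} (a : Fin r → ℕ) : Prop :=
  ∀ χ : G.edgeSet → Fin r, ∃ (i : Fin r) (s : Finset V), s.card = a i ∧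
    ∀ x ∈ s, ∀ y ∈ s, x ≠ y → ∃ h : s(x, y) ∈ G.edgeSet, χ ⟨s(x, y), h⟩ = i

/-- The colourings of the blocks. -/
def w (j : Fin 3) (x y : ℕ) : Fin 2 :=
  if j = 0 then 0 else if j = 1 then 1 else if x + y = 1 then 1 else 0

/-- The sizes of the blocks. -/
def sz (k ℓ : ℕ) (j : Fin 3) : ℕ := if j = 0 then k - 1 else if j = 1 then ℓ - 1 else ℓ

lemma card_lt {T : Finset ℕ} {n : ℕ} (h : ∀ x ∈ T, x < n) : T.card ≤ n := by
  have : T ⊆ Finset.range n := fun x hx => Finset.mem_range.2 (h x hx)
  simpa using Finset.card_le_card this

lemma card_le_one {T : Finset ℕ} (h : ∀ x ∈ T, ∀ y ∈ T, x ≠ y → False) : T.card ≤ 1 := by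
  apply Finset.card_le_one.2
  intro x hx y hy
  by_contra hxy
  exact h x hx y hy hxy

theorem result (k ℓ : ℕ) (hℓ : 3 ≤ ℓ) (hkℓ : ℓ ≤ k) :
    ∃ (V : Type) (_ : Finite V) (G : SimpleGraph V),
      ¬ Arrows G ![k, ℓ] ∧ Arrows G ![k - 1, k - 1, ℓ] := by
  refine V11133.NR.transfer (q := 2) (r := 3) (by norm_num) ![k, ℓ] ?_ ![k - 1, k - 1, ℓ]
    (J := Fin 3) (sz k ℓ) w ?_ ?_ ?_
  · intro c
    fin_cases c
    · simp; omega
    · simp; omega
  · intro j x y
    unfold w
    rw [add_comm]
  · intro j c T hT hc hcard
    fin_cases j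
    · -- red clique
      have h1 : T.card ≤ k - 1 := card_lt hT
      fin_cases c
      · have : T.card = k := hcard
        omega
      · have : T.card = ℓ := hcard
        have h2 : T.card ≤ 1 := card_le_one (fun x hx y hy hxy => by
          have := hc x hx y hy hxy
          simp [w] at this)
        omega
    · have h1 : T.card ≤ ℓ - 1 := card_lt hT
      fin_cases c
      · have : T.card = k := hcard
        omega
      · have : T.card = ℓ := hcard
        omega
    · have h0 : ∀ x ∈ T, x < ℓ := hT
      have h1 : T.card ≤ ℓ := card_lt h0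
      fin_cases c
      · have h2 : T.card = k := hcard
        -- not both `0` and `1` belong to `T`
        have h3 : ¬ (0 ∈ T ∧ 1 ∈ T) := by
          rintro ⟨h4, h5⟩
          have := hc 0 h4 1 h5 (by norm_num)
          simp [w] at this
        have h4 : T ≠ Finset.range ℓ := by
          intro h
          apply h3
          rw [h]
          simp
          omega
        have h5 : T ⊆ Finset.range ℓ := fun x hx => Finset.mem_range.2 (h0 x hx)
        have h6 := Finset.card_lt_card (h5.ssubset_of_ne h4)
        simp at h6
        omega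
      · have h2 : T.card = ℓ := hcard
        have h3 : T ⊆ Finset.range 2 := by
          intro x hx
          obtain ⟨y, hy, hxy⟩ := Finset.exists_mem_ne (s := T) (by omega) x
          have := hc x hx y hy hxy.symm
          simp only [w] at this
          rw [Finset.mem_range]
          by_contra hx2
          rw [if_neg (by omega : ¬ (x + y = 1))] at this
          simp at this
        have h4 := Finset.card_le_card h3
        simp at h4
        omega
  · intro φ
    have hφ : φ 0 = 0 ∨ φ 0 = 1 ∨ φ 0 = 2 := by
      generalize φ 0 = z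
      fin_cases z <;> simp
    have hφ1 : φ 1 = 0 ∨ φ 1 = 1 ∨ φ 1 = 2 := by
      generalize φ 1 = z
      fin_cases z <;> simp
    rcases hφ with h0 | h0 | h0
    · refine ⟨0, 0, Finset.range (k - 1), fun x hx => by simpa [sz] using hx, by simp, ?_⟩
      intro x _ y _ _
      simpa [w] using h0
    · refine ⟨0, 1, Finset.range (k - 1), fun x hx => by simpa [sz] using hx, by simp, ?_⟩
      intro x _ y _ _
      simpa [w] using h0
    · rcases hkℓ.lt_or_eq with hlt | heq
      · refine ⟨0, 2, Finset.range ℓ, fun x hx => ?_, by simp, ?_⟩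
        · have := Finset.mem_range.1 hx
          simp only [sz, if_true]
          omega
        · intro x _ y _ _
          simpa [w] using h0
      · subst heq
        rcases hφ1 with h1 | h1 | h1
        · refine ⟨1, 0, Finset.range (ℓ - 1), fun x hx => by simpa [sz] using hx, by simp, ?_⟩
          intro x _ y _ _
          simpa [w] using h1
        · refine ⟨1, 1, Finset.range (ℓ - 1), fun x hx => by simpa [sz] using hx, by simp, ?_⟩
          intro x _ y _ _
          simpa [w] using h1
        · refine ⟨2, 2, Finset.range ℓ, fun x hx => by simpa [sz] using hx, by simp, ?_⟩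
          intro x _ y _ _
          by_cases hxy : x + y = 1
          · simpa [w, hxy] using h1
          · simpa [w, hxy] using h0

end Pool.Agent.Results.MP_6ce170_co.Exists
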